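import Pool.Agent.H86.IR.Targets1

/-!
# MP_c11efe_an, module EP: an omitted point
-/

set_option autoImplicit false

open Complex Topology Filter InnerProductSpace
open scoped OnePoint

namespace Pool.Agent.H59.IR

open Pool.Agent.H86.IR

theorem ep : T_EP := by
  intro n B a hn hop hdis hmem
  by_contra hcon
  push Not at hcon
  have h0 : 0 < n := by omega
  have h1 : 1 < n := by omega
  let i0 : Fin n := ⟨0, h0⟩
  let i1 : Fin n := ⟨1, h1⟩
  have hne : i0 ≠ i1 := by
    intro h
    have := congrArg Fin.val h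
    simp [i0, i1] at this
  let U : Fin n → Set ℂ := fun k => (fun z : ℂ => (z : OnePoint ℂ)) ⁻¹' B k
  have hU : ∀ k, IsOpen (U k) := fun k => (hop k).preimage OnePoint.continuous_coe
  have hd : ∀ j k, j ≠ k → ∀ z, z ∈ U j → z ∉ U k := fun j k hjk z hj hk =>
    Set.disjoint_left.1 (hdis hjk) hj hk
  have hcl : IsClosed (U i0) := by
    have : (U i0)ᶜ = ⋃ k : {k : Fin n // k ≠ i0}, U k.1 := by
      ext z
      simp only [Set.mem_compl_iff, Set.mem_iUnion]
      constructor
      · intro hz
        obtain ⟨k, hk⟩ := hcon z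
        refine ⟨⟨k, ?_⟩, hk⟩
        rintro rfl
        exact hz hk
      · rintro ⟨⟨k, hk⟩, hz⟩ hz0
        exact hd i0 k (Ne.symm hk) z hz0 hz
    rw [← isOpen_compl_iff, this]
    exact isOpen_iUnion fun k => hU k.1
  have hclopen : IsClopen (U i0) := ⟨hcl, hU i0⟩
  rcases isClopen_iff.1 hclopen with h | h
  · have : a i0 ∈ U i0 := hmem i0
    rw [h] at this
    exact this
  · have h2 : a i1 ∈ U i0 := by rw [h]; trivial
    exact hd i0 i1 hne _ h2 (hmem i1)

end Pool.Agent.H59.IR
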