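import Pool.Agent.H86.IR.Targets2

/-!
# MP_c11efe_an, module MKG: from a Green function in the plane to the inner radius
-/

set_option autoImplicit false

open Complex Topology Filter InnerProductSpace
open scoped OnePoint

namespace Pool.Agent.H59.IR

open Pool.Agent.H86.IR

theorem mkg : T_MKG := by
  intro S a G H r hS ha hr hG hH hHa hev hfr hinf
  let g : OnePoint ℂ → ℝ := fun q => q.elim 0 G
  have hg : ∀ z : ℂ, g (z : OnePoint ℂ) = G z := fun z => rfl
  have hemb : IsOpenEmbedding (fun z : ℂ => (z : OnePoint ℂ)) := OnePoint.isOpenEmbedding_coe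
  have hop : IsOpen (fin S) := hemb.isOpenMap S hS
  refine ⟨hr, g, ⟨?_, ⟨H, hH, hev⟩, ?_⟩, ?_⟩
  · rintro p ⟨z, hz, rfl⟩ hne
    refine Or.inl ⟨z, rfl, hG z hz ?_⟩
    rintro rfl
    exact hne rfl
  · intro p hp
    have hp2 : p ∉ fin S := by
      have := hp.2
      rwa [hop.interior_eq] at this
    have hp1 : p ∈ closure (fin S) := hp.1
    induction p using OnePoint.rec with
    | infty =>
      have h1 : 𝓝[fin S] (∞ : OnePoint ℂ) ≤
          map (fun z : ℂ => (z : OnePoint ℂ)) (cocompact ℂ ⊓ 𝓟 S) := by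
        have hpre : (fun z : ℂ => (z : OnePoint ℂ)) ⁻¹' fin S = S :=
          Set.preimage_image_eq _ hemb.injective
        have h2 : map (fun z : ℂ => (z : OnePoint ℂ)) (cocompact ℂ ⊓ 𝓟 S) =
            𝓝[≠] (∞ : OnePoint ℂ) ⊓ 𝓟 (fin S) := by
          rw [OnePoint.nhdsNE_infty_eq, coclosedCompact_eq_cocompact]
          conv_lhs => rw [← hpre]
          exact map_inf_principal_preimage
        rw [h2, le_inf_iff]
        refine ⟨nhdsWithin_mono _ ?_, inf_le_right⟩
        rintro _ ⟨z, -, rfl⟩
        exact OnePoint.coe_ne_infty z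
      refine Tendsto.mono_left ?_ h1
      rw [tendsto_map'_iff]
      exact hinf
    | coe z =>
      have hz : z ∈ frontier S := by
        rw [hS.frontier_eq]
        refine ⟨?_, fun h => hp2 ⟨z, h, rfl⟩⟩
        rw [hemb.isInducing.closure_eq_preimage_closure_image S]
        exact hp1
      have h1 : 𝓝[fin S] (z : OnePoint ℂ) = map (fun z : ℂ => (z : OnePoint ℂ)) (𝓝[S] z) :=
        (hemb.isInducing.map_nhdsWithin_eq S z).symm
      rw [h1, tendsto_map'_iff]
      exact hfr z hz
  · have hc : Tendsto H (𝓝[≠] a) (𝓝 (Real.log r)) := by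
      rw [← hHa]
      exact (hH.1.continuousAt.tendsto).mono_left nhdsWithin_le_nhds
    refine hc.congr' ?_
    filter_upwards [hev] with z hz
    rw [hg, hz]
    ring

end Pool.Agent.H59.IR
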